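import Pool.Agent.helper47.TFQ.Spec

set_option autoImplicit false

/-! Module `QH1` of project tfq (MP_3703a7_ag): the relation for the Frobenius over a finite field, in characteristic zero after specialisation. -/

namespace Pool.Agent.TFQ

open Polynomial Pool.Agent.GJ Pool.Agent.TK
open Pool.Agent.FJ (VT Om chiO IsFrobO rf rs)
open Pool.Agent.TD (zK)

noncomputable section

theorem QH1_frob (O : ValuationSubring Om) (σ : Om ≃+* Om) (p : ℕ) (hp : p ≠ 0)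
    (h : IsFrobO O σ p) (u : Om) (hu : u ∉ O) : σ u ∉ O := by
  intro hs
  have hu0 : u ≠ 0 := by
    rintro rfl
    exact hu O.zero_mem
  have hi : u⁻¹ ∈ O := (O.mem_or_inv_mem u).resolve_left hu
  obtain ⟨y, hy1, hy2⟩ := h ⟨u⁻¹, hi⟩
  have hnu : ¬ IsUnit (⟨u⁻¹, hi⟩ : O) := by
    intro hun
    obtain ⟨w, hw⟩ := hun.exists_right_inv
    have h1 : u⁻¹ * (w : Om) = 1 := by
      have := congrArg (fun x : O => (x : Om)) hw
      exact this
    have h2 : u = (w : Om) := by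
      field_simp at h1
      exact h1.symm
    exact hu (h2 ▸ w.2)
  have h0 : rs O ⟨u⁻¹, hi⟩ = 0 := by
    rw [IsLocalRing.residue_eq_zero_iff]
    exact hnu
  rw [h0, zero_pow hp] at hy2
  have h3 : (⟨σ u, hs⟩ : O) * y = 1 := by
    refine Subtype.ext ?_
    show σ u * (y : Om) = 1
    rw [hy1, ← map_mul]
    show σ (u * u⁻¹) = 1
    rw [mul_inv_cancel₀ hu0, map_one]
  have h4 := congrArg (rs O) h3
  rw [map_mul, hy2, mul_zero, map_one] at h4
  exact zero_ne_one h4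

theorem QH1_iter (O : ValuationSubring Om) (σ : Om ≃+* Om) (p : ℕ) (h : IsFrobO O σ p) (x : O)
    (m : ℕ) : ∃ y : O, (y : Om) = σ^[m] (x : Om) ∧ rs O y = rs O x ^ p ^ m := by
  induction m with
  | zero => exact ⟨x, rfl, by simp⟩
  | succ m ih =>
    obtain ⟨y, hy, hy'⟩ := ih
    obtain ⟨z, hz, hz'⟩ := h y
    refine ⟨z, ?_, ?_⟩
    · rw [hz, hy, Function.iterate_succ_apply']
    · rw [hz', hy', ← pow_mul, ← pow_succ]

theorem QH1_back {F : Type} [Field F] [Fintype F] (O : ValuationSubring Om) (e : F →+* rf O)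
    (σ : Om ≃+* Om) (h : IsFrobO O σ (cq F)) {n : ℕ} (A : Fin (n + 1) → F) (u : Om) (m : ℕ)
    (H : ∃ w : O, (w : Om) = σ^[m] u ∧ ∀ j, rs O w ≠ bQ e A j) :
    ∃ w : O, (w : Om) = u ∧ ∀ j, rs O w ≠ bQ e A j := by
  induction m with
  | zero => exact H
  | succ m ih =>
    apply ih
    obtain ⟨w, hw, hj⟩ := H
    rw [Function.iterate_succ_apply'] at hw
    have hu : σ^[m] u ∈ O := by
      by_contra hc
      exact QH1_frob O σ (cq F) Fintype.card_ne_zero h _ hc (hw ▸ w.2)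
    refine ⟨⟨_, hu⟩, rfl, fun j hj' => ?_⟩
    obtain ⟨y, hy, hy'⟩ := h ⟨_, hu⟩
    have e1 : y = w := Subtype.ext (hy.trans hw.symm)
    rw [e1, hj'] at hy'
    apply hj j
    rw [hy']
    show e (A j) ^ cq F = e (A j)
    rw [← map_pow, FiniteField.pow_card]

theorem QH1_fwd {F : Type} [Field F] [Fintype F] (O : ValuationSubring Om) (e : F →+* rf O)
    (p M : ℕ) [Fact p.Prime] [CharP (rf O) p] (hcq : cq F = p ^ M) {n : ℕ}
    (A : Fin (n + 1) → F) (x : rf O) (m : ℕ) (j : Fin (n + 1))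
    (H : x ≠ bQ e A j) : x ^ cq F ^ m ≠ bQ e A j := by
  intro h1
  have h2 : bQ e A j ^ cq F ^ m = bQ e A j := by
    show e (A j) ^ cq F ^ m = e (A j)
    rw [← map_pow, FiniteField.pow_card_pow]
  have h0 : cq F ^ m = p ^ (M * m) := by rw [hcq, ← pow_mul]
  rw [h0] at h1 h2
  have h3 : (x - bQ e A j) ^ p ^ (M * m) = 0 := by
    rw [sub_pow_char_pow, h1, h2, sub_self]
  exact H (sub_eq_zero.1 (pow_eq_zero_iff (pow_ne_zero (M * m) (Fact.out : p.Prime).ne_zero) |>.1 h3))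

theorem QH1_chi {F : Type} [Field F] [Fintype F] (O : ValuationSubring Om) (e : F →+* rf O)
    {α n : ℕ} (χ : MulChar F Om)
    (hT : ∀ x : F, x ≠ 0 → ∃ y : O, (y : Om) = χ x ∧ rs O y = e x ^ α) (μ : Fin (n + 1) → ℕ)
    (w : Fin (n + 1) → F) (hw : ∀ j, w j ≠ 0) :
    ∃ y : O, (y : Om) = ∏ j, χ (w j) ^ μ j ∧ rs O y = e (chq α μ w) := by
  choose y hy hy' using fun j => hT (w j) (hw j)
  refine ⟨∏ j, y j ^ μ j, ?_, ?_⟩
  · have e1 : ((∏ j, y j ^ μ j : O) : Om) = ∏ j, ((y j : O) : Om) ^ μ j := by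
      show O.subtype (∏ j, y j ^ μ j) = _
      rw [map_prod]
      exact Finset.prod_congr rfl fun j _ => map_pow _ _ _
    rw [e1]
    exact Finset.prod_congr rfl fun j _ => by rw [hy]
  · rw [map_prod, chq, map_prod]
    refine Finset.prod_congr rfl fun j _ => ?_
    rw [map_pow, hy', map_pow, ← pow_mul, mul_comm α (μ j)]

theorem QH1_ru {F : Type} [Field F] [Fintype F] (l : ℕ) [Fact l.Prime] (χ : MulChar F Om)
    (hχ : orderOf χ = l) {n : ℕ} (μ : Fin (n + 1) → ℕ) (w : Fin (n + 1) → F)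
    (hw : ∀ j, w j ≠ 0) :
    (((ru l (∏ j, χ (w j) ^ μ j) : rootsOfUnity l Om) : Omˣ) : Om) = ∏ j, χ (w j) ^ μ j := by
  have h1 : (∏ j, χ (w j) ^ μ j) ^ l = 1 := by
    rw [← Finset.prod_pow]
    refine Finset.prod_eq_one fun j _ => ?_
    have h2 : χ (w j) ^ l = 1 := by
      rw [← MulChar.pow_apply' χ (Fact.out : l.Prime).ne_zero, ← hχ, pow_orderOf_eq_one,
        MulChar.one_apply (isUnit_iff_ne_zero.2 (hw j))]
    rw [← pow_mul, mul_comm, pow_mul, h2, one_pow]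
  rw [ru, dif_pos h1]
  exact rootsOfUnity.coe_mkOfPowEq h1

/-- the powers of `σ` on the class of a point -/
theorem QH1_sig (hKA7 : TK.KA7_stmt) (l : ℕ) [Fact l.Prime] {n : ℕ} (μ : Fin (n + 1) → ℕ)
    (a : Fin (n + 1) → Om) [Good Om l μ a] [IsDedekindDomain (CR Om l μ a)] (σ : Om ≃+* Om)
    (hσ : ∀ j, σ (a j) = a j) (q : Pc Om l μ a) (m : ℕ) :
    ∃ r : Pc Om l μ a, r.1 = (σ^[m] q.1.1, σ^[m] q.1.2) ∧
      (ClassGroup.mulEquiv (CR.aut σ hσ 1 : CR Om l μ a ≃+* CR Om l μ a))^[m] (cl q) = cl r := by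
  have hl0 : NeZero (l : Om) := ⟨by exact_mod_cast (Fact.out : l.Prime).ne_zero⟩
  obtain ⟨h1, -⟩ := hKA7 Om l n μ a
  induction m with
  | zero => exact ⟨q, rfl, rfl⟩
  | succ m ih =>
    obtain ⟨r, hr, hr'⟩ := ih
    have hr1 : r.1.1 = σ^[m] q.1.1 := by rw [hr]
    have hr2 : r.1.2 = σ^[m] q.1.2 := by rw [hr]
    refine ⟨mapPc (σ : Om →+* Om) hσ r, ?_, ?_⟩
    · show (σ r.1.1, σ r.1.2) = _
      rw [hr1, hr2, Function.iterate_succ_apply', Function.iterate_succ_apply']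
    · rw [Function.iterate_succ_apply', hr']
      exact h1 σ hσ 1 r _ rfl (by
        show (((1 : rootsOfUnity l Om) : Omˣ) : Om) * σ r.1.2 = σ r.1.2
        simp)

theorem QH1_mul (l : ℕ) [Fact l.Prime] {n : ℕ} {μ : Fin (n + 1) → ℕ} {a : Fin (n + 1) → Om}
    (s : rootsOfUnity l Om) (q : Pc Om l μ a) :
    ∃ r : Pc Om l μ a, r.1 = (q.1.1, ((s : Omˣ) : Om) * q.1.2) :=
  ⟨⟨(q.1.1, ((s : Omˣ) : Om) * q.1.2), by
    constructor
    · show (((s : Omˣ) : Om) * q.1.2) ^ l = _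
      rw [mul_pow, CR.rou, one_mul]
      exact q.2.1
    · exact ((s : Omˣ).isUnit).mul q.2.2⟩, rfl⟩

theorem QH1_pt (hKA7 : TK.KA7_stmt) (hKB1 : TK.KB1_stmt) (hQD10 : QD10_stmt)
    (hB1 : Pool.Agent.FJ.B1_stmt) (l : ℕ) [Fact l.Prime] {n : ℕ} (μ : Fin (n + 1) → ℕ)
    (a : Fin (n + 1) → Om) [Good Om l μ a] (p M α : ℕ) [Fact p.Prime]
    (F : Type) [Field F] [Fintype F] [DecidableEq F]
    (O : ValuationSubring Om) [CharP (rf O) p] (e : F →+* rf O) (χ : MulChar F Om)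
    (σ : Om ≃+* Om) (A : Fin (n + 1) → F) (hcq : cq F = p ^ M)
    (h2 : 2 < l) (hlα : l * α = cq F - 1) (hα : 0 < α)
    (hχ : orderOf χ = l) (hT : ∀ x : F, x ≠ 0 → ∃ y : O, (y : Om) = χ x ∧ rs O y = e x ^ α)
    (hF : IsFrobO O σ (cq F)) (hσ : ∀ j, σ (a j) = a j)
    [IsDedekindDomain (CR Om l μ a)] [Good (rf O) l μ (bQ e A)]
    [IsDedekindDomain (CR (rf O) l μ (bQ e A))] (a' : Fin (n + 1) → O)
    (h : ∀ j, O.subtype (a' j) = a j) (h' : ∀ j, rs O (a' j) = bQ e A j)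
    (sp : ClassGroup (CR Om l μ a) →* ClassGroup (CR (rf O) l μ (bQ e A)))
    (hsp : IsSp O h h' sp) (q : Pc Om l μ a) :
    ∏ k ∈ Finset.range (n + 1), ∏ c ∈ Gq A k,
      sp (ClassGroup.mulEquiv (CR.aut (RingEquiv.refl Om) (fun _ => rfl)
        (ru l (∏ j, χ ((gq c).eval (A j)) ^ μ j))⁻¹)
        ((ClassGroup.mulEquiv (CR.aut σ hσ 1 : CR Om l μ a ≃+* CR Om l μ a))^[n - k] (cl q))) = 1 := by
  have hk : IsAlgClosed (rf O) := (hB1 Om O).1
  have hp : p.Prime := Fact.out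
  have hl : l.Prime := Fact.out
  have hl0 : NeZero (l : Om) := ⟨by exact_mod_cast hl.ne_zero⟩
  have hcard : 1 < cq F := Fintype.one_lt_card
  have hM : M ≠ 0 := by
    intro hM0
    rw [hcq, hM0, pow_zero] at hcard
    exact lt_irrefl _ hcard
  have hl1 : NeZero (l : rf O) := ⟨by
    intro h0
    rw [CharP.cast_eq_zero_iff (rf O) p] at h0
    have h3 : p ∣ cq F - 1 := by
      rw [← hlα]
      exact h0.trans (Dvd.intro α rfl)
    have h4 : p ∣ cq F := by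
      rw [hcq]
      exact dvd_pow_self p hM
    have h5 : p ∣ cq F - (cq F - 1) := Nat.dvd_sub h4 h3
    have h6 : cq F - (cq F - 1) = 1 := by omega
    rw [h6] at h5
    exact hp.one_lt.ne' (Nat.dvd_one.1 h5)⟩
  have hpos : ∀ j, 0 < μ j := Good.pos (K := Om) (l := l) (μ := μ) (a := a)
  obtain ⟨h1, -⟩ := hKA7 Om l n μ a
  obtain ⟨b1, -, b3⟩ := hKB1 Om O l n μ a' a (bQ e A) h h' hpos
  -- the conjugate points
  have hr : ∀ (k : ℕ) (c : Fin k → F), ∃ r : Pc Om l μ a,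
      r.1 = (σ^[n - k] q.1.1,
        ((ru l (∏ j, χ ((gq c).eval (A j)) ^ μ j) : Omˣ) : Om) * σ^[n - k] q.1.2) ∧
      sp (ClassGroup.mulEquiv (CR.aut (RingEquiv.refl Om) (fun _ => rfl)
        (ru l (∏ j, χ ((gq c).eval (A j)) ^ μ j))⁻¹)
        ((ClassGroup.mulEquiv (CR.aut σ hσ 1 : CR Om l μ a ≃+* CR Om l μ a))^[n - k] (cl q))) =
      clo (red O h h' r) := by
    intro k c
    obtain ⟨r0, hr0, hr0'⟩ := QH1_sig hKA7 l μ a σ hσ q (n - k)
    obtain ⟨r, hr⟩ := QH1_mul l (ru l (∏ j, χ ((gq c).eval (A j)) ^ μ j)) r0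
    refine ⟨r, ?_, ?_⟩
    · rw [hr, hr0]
    · rw [hr0', ← hsp r]
      refine congrArg sp (h1 (RingEquiv.refl Om) (fun _ => rfl) _ r0 r ?_ ?_)
      · rw [hr]
        rfl
      · rw [hr]
        show ((((ru l (∏ j, χ ((gq c).eval (A j)) ^ μ j))⁻¹ : rootsOfUnity l Om) : Omˣ) : Om) *
          (((ru l (∏ j, χ ((gq c).eval (A j)) ^ μ j) : Omˣ) : Om) * r0.1.2) = r0.1.2
        rw [← mul_assoc, ← Units.val_mul]
        simp
  choose r hr hr' using hr
  rw [Finset.prod_congr rfl fun k _ => Finset.prod_congr rfl fun c _ => hr' k c]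
  by_cases hq : ∃ q' : Pc O l μ a', mapPc O.subtype h q' = q
  · obtain ⟨q1, hq1⟩ := hq
    obtain ⟨u0, hu0, hu0'⟩ := (b1 q).1 ⟨q1, hq1⟩
    have e1 : (q1.1.1 : Om) = q.1.1 := by rw [← hq1]; rfl
    have e2 : (q1.1.2 : Om) = q.1.2 := by rw [← hq1]; rfl
    have e3 : u0 = q1.1.1 := Subtype.ext (hu0.trans e1.symm)
    have H : ∀ (k : ℕ) (c : Fin k → F), ∃ x : Pc (rf O) l μ (bQ e A),
        k ≤ n → c ∈ Gq A k →
        x.1 = ((mapPc (rs O) h' q1).1.1 ^ cq F ^ (n - k),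
          e (chq α μ fun j => (gq c).eval (A j)) *
            (mapPc (rs O) h' q1).1.2 ^ cq F ^ (n - k)) ∧
        clo (red O h h' (r k c)) = cl x := by
      intro k c
      by_cases hc : c ∈ Gq A k
      · have hc' : ∀ j, (gq c).eval (A j) ≠ 0 := by
          rw [Gq, Finset.mem_filter] at hc
          exact hc.2
        obtain ⟨U, hU, hU'⟩ := QH1_iter O σ (cq F) hF q1.1.1 (n - k)
        obtain ⟨V, hV, hV'⟩ := QH1_iter O σ (cq F) hF q1.1.2 (n - k)
        obtain ⟨y, hy, hy'⟩ := QH1_chi O e χ hT μ (fun j => (gq c).eval (A j)) hc'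
        have hru := QH1_ru l χ hχ μ (fun j => (gq c).eval (A j)) hc'
        obtain ⟨q2, hq2⟩ := (b1 (r k c)).2 ⟨U, by rw [hr, hU, e1], fun j => by
          rw [hU', ← e3]
          exact QH1_fwd O e p M hcq A _ _ j (hu0' j)⟩
        have f1 : (q2.1.1 : Om) = (r k c).1.1 := by rw [← hq2]; rfl
        have f2 : (q2.1.2 : Om) = (r k c).1.2 := by rw [← hq2]; rfl
        have g1 : q2.1.1 = U := Subtype.ext (by rw [f1, hr, hU, e1])
        have g2 : q2.1.2 = y * V := Subtype.ext (by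
          rw [f2, hr]
          show _ = (y : Om) * (V : Om)
          rw [hy, hV, e2, hru])
        refine ⟨mapPc (rs O) h' q2, fun _ _ => ⟨?_, ?_⟩⟩
        · show (rs O q2.1.1, rs O q2.1.2) = (rs O q1.1.1 ^ cq F ^ (n - k),
            e (chq α μ fun j => (gq c).eval (A j)) * rs O q1.1.2 ^ cq F ^ (n - k))
          rw [g1, g2, map_mul, hU', hV', hy']
        · rw [← hq2, b3]
          rfl
      · exact ⟨mapPc (rs O) h' q1, fun _ hc' => absurd hc' hc⟩
    choose Q hQ using H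
    have hIQ : IsQQ e α A (mapPc (rs O) h' q1) Q := fun k hk c hc => (hQ k c hk hc).1
    have hfin := hQD10 F (rf O) p M l α n e hcq μ A (mapPc (rs O) h' q1) Q h2 hlα hα hIQ
    rw [← hfin]
    refine Finset.prod_congr rfl fun k hk => Finset.prod_congr rfl fun c hc => ?_
    exact (hQ k c (Nat.lt_succ_iff.1 (Finset.mem_range.1 hk)) hc).2
  · have hno : ∀ k c, clo (red O h h' (r k c)) = 1 := by
      intro k c
      have hn : ¬ ∃ q' : Pc O l μ a', mapPc O.subtype h q' = r k c := by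
        intro h3
        obtain ⟨w, hw, hw'⟩ := (b1 (r k c)).1 h3
        exact hq ((b1 q).2 (QH1_back O e σ hF A q.1.1 (n - k) ⟨w, by rw [hw, hr], hw'⟩))
      rw [red, dif_neg hn]
      rfl
    exact Finset.prod_eq_one fun k _ => Finset.prod_eq_one fun c _ => hno k c

theorem QH1 (hKA7 : TK.KA7_stmt) (hKB1 : TK.KB1_stmt) (hQD10 : QD10_stmt)
    (hB1 : Pool.Agent.FJ.B1_stmt) : QH1_stmt := by
  intro l n _ μ a _ _ p M α _ F _ _ _ O _ e χ σ A hP hcq _ _ a' h h' sp hsp C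
  have hl0 : NeZero (l : Om) := ⟨by exact_mod_cast (Fact.out : l.Prime).ne_zero⟩
  obtain ⟨-, h2, -⟩ := hKA7 Om l n μ a
  obtain ⟨S, rfl⟩ := h2 C
  induction S using Multiset.induction_on with
  | empty =>
    rw [Multiset.map_zero, Multiset.prod_zero]
    refine Finset.prod_eq_one fun k _ => Finset.prod_eq_one fun c _ => ?_
    rw [iterate_map_one, map_one, map_one]
  | cons q S ih =>
    rw [Multiset.map_cons, Multiset.prod_cons]
    have e1 : ∀ k ∈ Finset.range (n + 1), (∏ c ∈ Gq A k,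
        sp (ClassGroup.mulEquiv (CR.aut (RingEquiv.refl Om) (fun _ => rfl)
        (ru l (∏ j, χ ((gq c).eval (A j)) ^ μ j))⁻¹)
        ((ClassGroup.mulEquiv (CR.aut σ hP.fix 1 :
          CR Om l μ a ≃+* CR Om l μ a))^[n - k]
            (cl q * (S.map cl).prod)))) =
        (∏ c ∈ Gq A k,
        sp (ClassGroup.mulEquiv (CR.aut (RingEquiv.refl Om) (fun _ => rfl)
        (ru l (∏ j, χ ((gq c).eval (A j)) ^ μ j))⁻¹)
        ((ClassGroup.mulEquiv (CR.aut σ hP.fix 1 :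
          CR Om l μ a ≃+* CR Om l μ a))^[n - k] (cl q)))) *
        ∏ c ∈ Gq A k,
        sp (ClassGroup.mulEquiv (CR.aut (RingEquiv.refl Om) (fun _ => rfl)
        (ru l (∏ j, χ ((gq c).eval (A j)) ^ μ j))⁻¹)
        ((ClassGroup.mulEquiv (CR.aut σ hP.fix 1 :
          CR Om l μ a ≃+* CR Om l μ a))^[n - k]
            (S.map cl).prod)) := by
      intro k _
      rw [← Finset.prod_mul_distrib]
      refine Finset.prod_congr rfl fun c _ => ?_
      rw [iterate_map_mul, map_mul, map_mul]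
    rw [Finset.prod_congr rfl e1, Finset.prod_mul_distrib, ih, mul_one]
    exact QH1_pt hKA7 hKB1 hQD10 hB1 l μ a p M α F O e χ σ A hcq hP.two hP.eq hP.pos hP.ord
      hP.tei hP.frob hP.fix a' h h' sp hsp q

end

end Pool.Agent.TFQ
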